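import Pool.Agent.MP_86c931_ag.H30.Geo
import Pool.Agent.MP_86c931_ag.H30.Vanish
import Pool.Agent.MP_86c931_ag.H30.Exist

namespace Pool.Agent.Results.MP_86c931_ag.CuspidalPlane

open AlgebraicGeometry CategoryTheory Opposite Pool.Agent.MP_86c931_ag.H30

/-- For `R = ℂ + (x,y)^2`, `Spec R` is an irreducible affine Poisson variety, the symplectic plane
`Spec ℂ[x,y] → Spec R` is proper and birational, `H^2` of the plane vanishes, `R/{R,R}` has
dimension one, quantizations of the plane exist and each has `HH_0(A[h⁻¹]) = 0`. -/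
theorem result : ∃ R : Subalgebra ℂ (MvPolynomial (Fin 2) ℂ),
    (∀ f, f ∈ R ↔ ∀ i, MvPolynomial.constantCoeff (MvPolynomial.pderiv i f) = 0) ∧
    IsDomain R ∧ Algebra.FiniteType ℂ R ∧ (∀ f ∈ R, ∀ g ∈ R, br f g ∈ R) ∧
    Algebra.Smooth ℂ (MvPolynomial (Fin 2) ℂ) ∧ IsProper (rho R) ∧
    (∃ U : (Spec (CommRingCat.of R)).Opens,
      Dense (U : Set (Spec (CommRingCat.of R))) ∧ IsIso (rho R ∣_ U)) ∧
    (∀ f : MvPolynomial (Fin 2) ℂ, ∃ a b : MvPolynomial (Fin 2) ℂ,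
      f = MvPolynomial.pderiv 0 b - MvPolynomial.pderiv 1 a) ∧
    Module.finrank ℂ (R ⧸ brackets R) = 1 ∧
    (∃ B π, IsQuantization (P := CommRingCat.of (MvPolynomial (Fin 2) ℂ)) B π MvPolynomial.C br) ∧
    ∀ B π, IsQuantization (P := CommRingCat.of (MvPolynomial (Fin 2) ℂ)) B π MvPolynomial.C br →
      Subsingleton (HH0 (B.obj (op ⊤))) := by
  refine ⟨R, fun _ => Iff.rfl, inferInstance, finiteType_R, fun f hf g hg => br_mem hf hg,
    ⟨inferInstance, inferInstance⟩, rho_proper, rho_birational, fun f => ?_, finrank_HP0,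
    ⟨_, _, stdQ.isQ⟩, fun _ _ h => h.toQ.hh0_subsingleton⟩
  obtain ⟨b, hb⟩ := exists_antider 0 f
  exact ⟨0, b, by rw [hb, map_zero, sub_zero]⟩

end Pool.Agent.Results.MP_86c931_ag.CuspidalPlane
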