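import Pool.Agent.MP_86c931_ag.H56.Final

namespace Pool.Agent.Results.MP_86c931_ag.NormalNoTrace

open AlgebraicGeometry CategoryTheory Opposite Pool.Agent.MP_86c931_ag.H56

/-- A normal affine Poisson variety `Spec R` with a symplectic resolution `Y` of dimension 14 such
that `R/{R,R}` has dimension one, quantizations of `Y` exist, and each of them has
`HH_0(A[h⁻¹]) = 0` for its algebra `A` of global sections. -/
theorem result :
    ∃ (R : Type) (_ : CommRing R) (_ : Algebra ℂ R) (β : R → R → R) (Y : Scheme.{0})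
      (ρ : Y ⟶ Spec (CommRingCat.of R)),
      IsDomain R ∧ IsIntegrallyClosed R ∧ Algebra.FiniteType ℂ R ∧ IsPoisson β ∧
      IsIntegral Y ∧ DarbouxCharts ρ β 7 ∧ IsProper ρ ∧
      (∃ U : (Spec (CommRingCat.of R)).Opens,
        Dense (U : Set (Spec (CommRingCat.of R))) ∧ IsIso (ρ ∣_ U)) ∧
      Module.finrank ℂ (R ⧸ brackets β) = 1 ∧
      (∃ B π, IsQuantization ρ B π β) ∧
      ∀ B π, IsQuantization ρ B π β → Subsingleton (HH0 (B.obj (op ⊤))) :=
  goal

end Pool.Agent.Results.MP_86c931_ag.NormalNoTrace
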